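import Pool.Agent.U180.NG.Stm

/-!
Project NG, package UPP: the almost sure upper bound.
-/

set_option autoImplicit false

open MeasureTheory ProbabilityTheory Filter Topology
open Pool.Agent.H469R2.NK (e)

namespace Pool.Agent.U296.NG

open Pool.Agent.U180.NG

/-- the deterministic part -/
lemma upp_det {f : ℝ → ℝ} {A C : ℝ} (hA : 0 < A) (hC : 0 < C)
    (hmono : ∀ R R' : ℝ, 0 ≤ R → R ≤ R' → f R ≤ f R')
    (hf : ∀ᶠ j : ℕ in atTop, |f (Real.sqrt j) - Real.pi * j| ≤
      Real.sqrt (A * Real.sqrt j * Real.log j) + C * Real.sqrt (Real.sqrt j)) :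
    ∀ᶠ R : ℝ in atTop, |f R - Real.pi * R ^ 2| ≤
      (Real.sqrt (8 * A) + C * Real.sqrt 2 + Real.pi) * Real.sqrt (R * Real.log R) := by
  obtain ⟨j0, hj0⟩ := eventually_atTop.1 hf
  filter_upwards [eventually_ge_atTop (max 3 ((j0 : ℝ) + 1))] with R hR
  have hR3 : 3 ≤ R := (le_max_left _ _).trans hR
  have hRj : (j0 : ℝ) + 1 ≤ R := (le_max_right _ _).trans hR
  have hlog : 1 ≤ Real.log R := by
    rw [Real.le_log_iff_exp_le (by linarith)]
    have := Real.exp_one_lt_d9
    linarith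
  set L := Real.sqrt (R * Real.log R) with hL
  have hL1 : 1 ≤ L := by
    rw [hL, Real.one_le_sqrt]
    nlinarith
  have key : ∀ j : ℕ, j0 ≤ j → 1 ≤ j → (j : ℝ) ≤ (2 * R) ^ 2 → |f (Real.sqrt j) - Real.pi * j| ≤
      (Real.sqrt (8 * A) + C * Real.sqrt 2) * L := by
    intro j hj hj1 hjR
    refine (hj0 j hj).trans ?_
    have hj1' : (1 : ℝ) ≤ j := by exact_mod_cast hj1
    have e1 : Real.sqrt j ≤ 2 * R := Real.sqrt_le_iff.2 ⟨by linarith, hjR⟩
    have e2 : Real.log j ≤ 4 * Real.log R := by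
      have h1 : Real.log j ≤ Real.log ((2 * R) ^ 2) := Real.log_le_log (by linarith) hjR
      rw [Real.log_pow, Real.log_mul (by norm_num) (by linarith)] at h1
      have h2 : Real.log 2 ≤ Real.log R := Real.log_le_log (by norm_num) (by linarith)
      push_cast at h1
      linarith
    have e3 : 0 ≤ Real.log j := Real.log_nonneg hj1'
    have e4 : A * Real.sqrt j * Real.log j ≤ (8 * A) * (R * Real.log R) := by
      have : A * Real.sqrt j * Real.log j ≤ A * (2 * R) * (4 * Real.log R) := by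
        apply mul_le_mul _ e2 e3 (by positivity)
        exact mul_le_mul_of_nonneg_left e1 hA.le
      calc _ ≤ _ := this
        _ = _ := by ring
    have e5 : Real.sqrt (A * Real.sqrt j * Real.log j) ≤ Real.sqrt (8 * A) * L := by
      rw [hL, ← Real.sqrt_mul (by positivity)]
      exact Real.sqrt_le_sqrt e4
    have e6 : Real.sqrt (Real.sqrt j) ≤ Real.sqrt 2 * L := by
      rw [hL, ← Real.sqrt_mul (by norm_num)]
      apply Real.sqrt_le_sqrt
      nlinarith
    have e7 : C * Real.sqrt (Real.sqrt j) ≤ C * (Real.sqrt 2 * L) :=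
      mul_le_mul_of_nonneg_left e6 hC.le
    calc _ ≤ Real.sqrt (8 * A) * L + C * (Real.sqrt 2 * L) := add_le_add e5 e7
      _ = _ := by ring
  set j := ⌊R ^ 2⌋₊ with hj
  have hR2 : (0 : ℝ) ≤ R ^ 2 := by positivity
  have hj1 : (j : ℝ) ≤ R ^ 2 := Nat.floor_le hR2
  have hj2 : R ^ 2 < j + 1 := Nat.lt_floor_add_one _
  have hj3 : j0 ≤ j := by
    apply Nat.le_floor
    nlinarith
  have hj4 : 1 ≤ j := by
    apply Nat.le_floor
    push_cast
    nlinarith
  have k1 := key j hj3 hj4 (by nlinarith)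
  have k2 := key (j + 1) (by omega) (by omega) (by push_cast; nlinarith)
  have m1 : f (Real.sqrt j) ≤ f R := by
    apply hmono _ _ (Real.sqrt_nonneg _)
    exact Real.sqrt_le_iff.2 ⟨by linarith, hj1⟩
  have m2 : f R ≤ f (Real.sqrt ((j + 1 : ℕ) : ℝ)) := by
    apply hmono _ _ (by linarith)
    apply Real.le_sqrt_of_sq_le
    push_cast
    exact hj2.le
  have hpi := Real.pi_pos
  have hpL : Real.pi ≤ Real.pi * L := by nlinarith
  have hpj : Real.pi * j ≤ Real.pi * R ^ 2 := mul_le_mul_of_nonneg_left hj1 hpi.le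
  have hpj' : Real.pi * R ^ 2 ≤ Real.pi * (j + 1) := mul_le_mul_of_nonneg_left hj2.le hpi.le
  rw [abs_le] at k1 k2 ⊢
  push_cast at k2 m2
  constructor
  · linarith [k1.1]
  · linarith [k2.2]

theorem t_UPP (h1 : S_FLUC) (h2 : S_HOEF) : S_UPP := by
  intro Ω _ P hP δ ρ μ ξ hξ
  obtain ⟨C, A, c, R₀, r, S, hC, hA, hc, hr, hmean, hS, -, hmeas, hind, hmono⟩ :=
    h1 Ω P hP δ ρ μ ξ hξ
  refine ⟨Real.sqrt (8 * A) + C * Real.sqrt 2 + Real.pi, ?_⟩
  -- the exceptional sets
  set F : ℕ → Set Ω := fun j => {ω | 2 ≤ j ∧ Real.sqrt (A * Real.sqrt j * Real.log j) ≤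
    |∑ z ∈ S (Real.sqrt j), (ind ξ (Real.sqrt j) z ω - ∫ ω, ind ξ (Real.sqrt j) z ω ∂P)|} with hF
  have hFb : ∀ j : ℕ, P (F j) ≤ ENNReal.ofReal (2 * (1 / (j : ℝ) ^ 2)) := by
    intro j
    by_cases hj : 2 ≤ j
    · have hj' : (2 : ℝ) ≤ j := by exact_mod_cast hj
      have hsq : 1 ≤ Real.sqrt j := Real.one_le_sqrt.2 (by linarith)
      have hlog : 0 ≤ Real.log j := Real.log_nonneg (by linarith)
      have h3 := h2 Ω (ℤ × ℤ) P hP (ind ξ (Real.sqrt j)) (S (Real.sqrt j)) (A * Real.sqrt j)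
        (Real.sqrt (A * Real.sqrt j * Real.log j)) (hmeas _) (hind _)
        (fun z ω => by
          unfold ind
          by_cases h : ξ z ω ∈ disc (Real.sqrt j) z
          · exact Or.inr (Set.indicator_of_mem h _)
          · exact Or.inl (Set.indicator_of_notMem h _))
        (by positivity) (hS _ hsq).1 (Real.sqrt_nonneg _)
      have h4 : F j = {ω | Real.sqrt (A * Real.sqrt j * Real.log j) ≤
          |∑ z ∈ S (Real.sqrt j), (ind ξ (Real.sqrt j) z ω -
            ∫ ω, ind ξ (Real.sqrt j) z ω ∂P)|} := by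
        rw [hF]
        ext ω
        simp only [Set.mem_ofPred_eq]
        exact ⟨fun h => h.2, fun h => ⟨hj, h⟩⟩
      rw [h4]
      rw [ENNReal.le_ofReal_iff_toReal_le (measure_ne_top _ _) (by positivity)]
      refine h3.trans (le_of_eq ?_)
      have hpos : 0 < A * Real.sqrt j := by positivity
      rw [Real.sq_sqrt (by positivity)]
      have h5 : -2 * (A * Real.sqrt j * Real.log j) / (A * Real.sqrt j) = -(2 * Real.log j) := by
        field_simp
      rw [h5, Real.exp_neg, mul_comm 2 (Real.log j), Real.exp_mul, Real.exp_log (by linarith)]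
      norm_num
    · have h4 : F j = ∅ := by
        rw [hF]
        apply Set.eq_empty_of_forall_notMem
        intro ω hω
        exact hj hω.1
      rw [h4, measure_empty]
      exact bot_le
  have hsum : ∑' j, P (F j) ≠ ⊤ := by
    have h3 : Summable fun j : ℕ => 2 * (1 / (j : ℝ) ^ 2) :=
      (Real.summable_one_div_nat_pow.2 one_lt_two).mul_left 2
    exact ne_top_of_le_ne_top h3.tsum_ofReal_ne_top (ENNReal.tsum_le_tsum hFb)
  have hae := ae_eventually_notMem hsum
  have hid : ∀ᵐ ω ∂P, ∀ j : ℕ, 1 ≤ Real.sqrt j → (count (fun z => ξ z ω) (Real.sqrt j) : ℝ) -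
      ∫ ω, (count (fun z => ξ z ω) (Real.sqrt j) : ℝ) ∂P =
          ∑ z ∈ S (Real.sqrt j), (ind ξ (Real.sqrt j) z ω - ∫ ω, ind ξ (Real.sqrt j) z ω ∂P) := by
    rw [ae_all_iff]
    intro j
    by_cases hj : 1 ≤ Real.sqrt j
    · filter_upwards [(hS _ hj).2.2] with ω hω _
      exact hω
    · exact Eventually.of_forall fun ω h => absurd h hj
  filter_upwards [hae, hid, hmono] with ω hω1 hω2 hω3
  apply upp_det (f := fun R => (count (fun z => ξ z ω) R : ℝ)) hA hC
  · intro R R' h0 hRR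
    exact_mod_cast hω3 R R' h0 hRR
  · filter_upwards [hω1, eventually_ge_atTop 2] with j hj1 hj2
    have hj' : (2 : ℝ) ≤ j := by exact_mod_cast hj2
    have hsq : 1 ≤ Real.sqrt j := Real.one_le_sqrt.2 (by linarith)
    have h3 : |∑ z ∈ S (Real.sqrt j), (ind ξ (Real.sqrt j) z ω -
        ∫ ω, ind ξ (Real.sqrt j) z ω ∂P)| < Real.sqrt (A * Real.sqrt j * Real.log j) := by
      by_contra h4
      exact hj1 ⟨hj2, not_lt.1 h4⟩
    rw [← hω2 j hsq] at h3
    have h5 := hmean (Real.sqrt j) hsq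
    rw [Real.sq_sqrt (by linarith)] at h5
    calc |(count (fun z => ξ z ω) (Real.sqrt j) : ℝ) - Real.pi * j|
        = |((count (fun z => ξ z ω) (Real.sqrt j) : ℝ) -
          ∫ ω, (count (fun z => ξ z ω) (Real.sqrt j) : ℝ) ∂P) +
          ((∫ ω, (count (fun z => ξ z ω) (Real.sqrt j) : ℝ) ∂P) - Real.pi * j)| := by
            congr 1
            ring
      _ ≤ _ := (abs_add_le _ _).trans (add_le_add h3.le h5)

end Pool.Agent.U296.NG
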